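import Mathlib
import Pool.Agent.H520R3.MG4

/-!
# The level bound of the Markov group theorem, uniformly in the semigroup

The proof of `MSG.levels` (`Pool/Agent/H520R3/MG3.lean`) with the quantifiers reordered: the level
`l₀` depends only on the lower bound `M`.
-/

set_option autoImplicit false
open Set Filter Topology BoundedContinuousFunction

namespace Pool.Agent.W673.Mk
open H520R3.MG

theorem levels' (M : ℝ) (hM1 : 1 ≤ M) : ∃ l₀ : ℕ, ∀ T : NNReal → (E →L[ℝ] E), MSG T →
    (∀ t : NNReal, t ≤ 2 → ∀ x : E, ‖x‖ ≤ M * ‖T t x‖) →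
    ∀ j, ∀ m, l₀ < m → (3 : ℝ) / 4 < (T (hl m) (e j)) j := by
  obtain ⟨N, hN⟩ := exists_small (1 / (8 * M)) (by positivity)
  set η : ℝ := 1 / (16 * M) with hη
  have hη0 : 0 < η := by positivity
  set C : ℝ := 2 * N * (16 * M) with hC
  have hC0 : 0 ≤ C := by positivity
  -- level sets are empty for large l
  have hlim : Tendsto (fun l : ℕ => ((1 : ℝ) / 2) ^ l) atTop (𝓝 0) :=
    tendsto_pow_atTop_nhds_zero_of_lt_one (by norm_num) (by norm_num)
  obtain ⟨l₀, hl₀⟩ := eventually_atTop.1 (hlim.eventually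
    (gt_mem_nhds (show (0 : ℝ) < η / (2 * N + C + 1) by positivity)))
  refine ⟨l₀, fun T hT hM => ?_⟩
  -- integrals
  let a : ℕ → ℕ → ℝ := fun i L => ∫ t in (0 : ℝ)..1, g T (Sl T L) i t
  have ha_succ : ∀ i L, a i (L + 1) ≤ a i L + ((hl (L + 1) : NNReal) : ℝ) * C := by
    intro i L
    have e1 : a i (L + 1) = a i L + ∫ t in (0 : ℝ)..1, g T (La T (L + 1)) i t := by
      change ∫ t in (0 : ℝ)..1, g T (Sl T (L + 1)) i t =
        (∫ t in (0 : ℝ)..1, g T (Sl T L) i t) + _
      rw [← intervalIntegral.integral_add ((hT.g_cont _ i).intervalIntegrable _ _)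
        ((hT.g_cont _ i).intervalIntegrable _ _)]
      congr 1
      funext t
      unfold g
      have : ind (Sl T (L + 1)) = ind (Sl T L) + ind (La T (L + 1)) := by
        ext x; exact ind_Sl_succ L x
      rw [this, map_add]
      rfl
    rw [e1]
    have e2 := hT.int_bound (La T (L + 1)) i (L + 1) C (fun r _ =>
      (hT.mkv r).kern.le_const (fun x => hT.La_visits hM1 hM hN (L + 1) x) i)
    linarith
  have ha_add : ∀ i L d, a i (L + d) ≤ a i L + C * (((hl L : NNReal) : ℝ) - ((hl (L + d) : NNReal) : ℝ)) := by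
    intro i L d
    induction d with
    | zero => simp
    | succ d ih =>
      have h1 := ha_succ i (L + d)
      have h2 : ((hl (L + d) : NNReal) : ℝ) = 2 * ((hl (L + d + 1) : NNReal) : ℝ) := by
        rw [hl_succ (L + d)]; push_cast; ring
      rw [show L + (d + 1) = L + d + 1 by ring]
      rw [h2] at ih
      linarith
  have ha_lim : ∀ i, Tendsto (a i) atTop (𝓝 1) := by
    intro i
    have h1 : (1 : ℝ) = ∫ t in (0 : ℝ)..1, (1 : ℝ) := by simp
    rw [h1]
    refine intervalIntegral.tendsto_integral_filter_of_dominated_convergence (fun _ => 1) ?_ ?_ ?_ ?_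
    · exact Eventually.of_forall fun L => (hT.g_cont _ i).aestronglyMeasurable
    · refine Eventually.of_forall fun L => Eventually.of_forall fun t _ => ?_
      unfold g
      rw [Real.norm_eq_abs]
      exact (hT.mkv _).kern.abs_le_const (fun x => by
        rw [abs_of_nonneg (ind_nonneg _ _)]; exact ind_le_one _ _) i
    · exact intervalIntegrable_const
    · exact Eventually.of_forall fun t _ => hT.g_tendsto i t
  have ha_one : ∀ i L, 1 ≤ a i L + C * ((hl L : NNReal) : ℝ) := by
    intro i L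
    refine le_of_tendsto (ha_lim i) ?_
    filter_upwards [eventually_ge_atTop L] with m hm
    obtain ⟨d, rfl⟩ := Nat.exists_eq_add_of_le hm
    have h1 := ha_add i L d
    have h2 : 0 ≤ C * ((hl (L + d) : NNReal) : ℝ) := by positivity
    linarith
  have ha_up : ∀ l i, i ∈ La T l → a i l ≤ (1 - η) + ((hl l : NNReal) : ℝ) * (2 * N) := by
    intro l i hi
    have hL := hT.lazy l
    have h1 := hT.int_bound (Sl T l) i l (2 * N + (1 - η) * (2 ^ l : ℕ)) (by
      intro r hr
      have h2 := (hT.mkv r).kern.mono (f := V (P (T (hl l))) (Sl T l) (2 ^ l))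
        (g := (2 * (N : ℝ) + (2 ^ l : ℕ)) • (1 : F) -
          ((2 ^ l : ℕ) : ℝ) • U (P (T (hl l))) (Sl T l) (2 ^ l) N) (fun x => by
          simp only [BoundedContinuousFunction.coe_sub, Pi.sub_apply,
            BoundedContinuousFunction.coe_smul, BoundedContinuousFunction.coe_one,
            Pi.one_apply, smul_eq_mul]
          have := visits hL (le_refl (Sl T l)) (2 ^ l) ((2 ^ l : ℕ) : ℝ)
            (fun y => V_le hL.kern _ _ y) (by positivity) (2 ^ l) le_rfl N x
          linarith) i
      rw [map_sub, BoundedContinuousFunction.coe_sub, Pi.sub_apply, (hT.mkv r).kern.const,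
        map_smul] at h2
      have h2' : P (T r) (V (P (T (hl l))) (Sl T l) (2 ^ l)) i ≤ 2 * (N : ℝ) + (2 ^ l : ℕ) -
          ((2 ^ l : ℕ) : ℝ) * P (T r) (U (P (T (hl l))) (Sl T l) (2 ^ l) N) i := h2
      have h3 := hT.exit hM1 hM hN l i hi.2 r hr
      have h4 : ((2 ^ l : ℕ) : ℝ) * η ≤ ((2 ^ l : ℕ) : ℝ) *
          P (T r) (U (P (T (hl l))) (Sl T l) (2 ^ l) N) i :=
        mul_le_mul_of_nonneg_left h3 (by positivity)
      linarith)
    refine h1.trans (le_of_eq ?_)
    have h5 := hl_mul_real l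
    calc ((hl l : NNReal) : ℝ) * (2 * N + (1 - η) * (2 ^ l : ℕ))
        = (1 - η) * (((2 ^ l : ℕ) : ℝ) * ((hl l : NNReal) : ℝ)) + ((hl l : NNReal) : ℝ) * (2 * N) := by
          ring
      _ = _ := by rw [h5, mul_one]
  have hempty : ∀ l, l₀ ≤ l → ∀ i, i ∉ La T l := by
    intro l hl' i hi
    have h1 := ha_up l i hi
    have h2 := ha_one i l
    have h3 := hl₀ l hl'
    rw [← hl_real, lt_div_iff₀ (by positivity)] at h3
    have h4 : (0 : ℝ) < ((hl l : NNReal) : ℝ) := by exact_mod_cast hl_pos l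
    nlinarith
  have hdown : ∀ d j, j ∈ Sl T (l₀ + d) → j ∈ Sl T l₀ := by
    intro d
    induction d with
    | zero => exact fun j hj => hj
    | succ d ih =>
      intro j hj
      apply ih
      have hj' : j ∈ Sl T (l₀ + d + 1) := hj
      have h1 := ind_Sl_succ (T := T) (l₀ + d) j
      rw [ind_of_mem hj', ind_of_notMem (hempty (l₀ + d + 1) (by omega) j), add_zero] at h1
      by_contra hcon
      rw [ind_of_notMem hcon] at h1
      norm_num at h1
  intro j m hm
  obtain ⟨L, hL⟩ := hT.mem_Sl j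
  exact hdown L j (Sl_mono (by omega) hL) m hm

end Pool.Agent.W673.Mk
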