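import Mathlib
import Pool.Agent.W673.Mk.Levels

/-!
# The decoupled Markov group theorem

A finite Markov semigroup `exp (t Q)` is extended by the identity to `ℓ¹`, and the uniform level
bound of `Levels.lean` is applied.
-/

set_option autoImplicit false
open Set Filter Topology

namespace Pool.Agent.W673.Mk
open H520R3.MG

theorem ext_e {V : Type*} [NormedAddCommGroup V] [NormedSpace ℝ V] {A B : E →L[ℝ] V}
    (h : ∀ n, A (e n) = B (e n)) : A = B := by
  ext x
  have h1 := (hasSum_e x).mapL A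
  have h2 := (hasSum_e x).mapL B
  have h3 : (fun b => A (x b • e b)) = fun b => B (x b • e b) := by
    funext b; rw [map_smul, map_smul, h b]
  rw [h3] at h1
  exact h1.unique h2

/-- coordinate functionals -/
noncomputable def cf (j : ℕ) : E →L[ℝ] ℝ :=
  LinearMap.mkContinuous
    { toFun := fun x => x j
      map_add' := fun _ _ => rfl
      map_smul' := fun _ _ => rfl } 1 (fun x => by
        rw [one_mul]
        exact lp.norm_apply_le_norm (by norm_num) x j)

theorem cf_apply (j : ℕ) (x : E) : cf j x = x j := rfl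

theorem cf_e (j i : ℕ) : cf j (e i) = if j = i then 1 else 0 := by
  rw [cf_apply]
  split_ifs with h
  · subst h; exact e_self j
  · exact e_ne h

variable {d : ℕ}

/-- a matrix as an operator on the first `d` coordinates -/
noncomputable def ph (X : Matrix (Fin d) (Fin d) ℝ) : E →L[ℝ] E :=
  ∑ i : Fin d, ∑ j : Fin d, X i j • (cf j).smulRight (e i)

theorem ph_apply (X : Matrix (Fin d) (Fin d) ℝ) (x : E) :
    ph X x = ∑ i : Fin d, ∑ j : Fin d, (X i j * x j) • e i := by
  unfold ph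
  rw [ContinuousLinearMap.sum_apply]
  refine Finset.sum_congr rfl fun i _ => ?_
  rw [ContinuousLinearMap.sum_apply]
  refine Finset.sum_congr rfl fun j _ => ?_
  rw [ContinuousLinearMap.smul_apply, ContinuousLinearMap.smulRight_apply, cf_apply, smul_smul]

theorem ph_e (X : Matrix (Fin d) (Fin d) ℝ) (j : Fin d) :
    ph X (e j) = ∑ i : Fin d, X i j • e (i : ℕ) := by
  rw [ph_apply]
  refine Finset.sum_congr rfl fun i _ => ?_
  rw [Finset.sum_eq_single j]
  · rw [e_self, mul_one]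
  · intro k _ hk
    rw [e_ne (fun h => hk (Fin.ext h)), mul_zero, zero_smul]
  · intro h; exact absurd (Finset.mem_univ _) h

theorem ph_e_ge (X : Matrix (Fin d) (Fin d) ℝ) {n : ℕ} (hn : d ≤ n) : ph X (e n) = 0 := by
  rw [ph_apply]
  refine Finset.sum_eq_zero fun i _ => Finset.sum_eq_zero fun j _ => ?_
  have := j.2
  rw [e_ne (by omega : (j : ℕ) ≠ n), mul_zero, zero_smul]

/-- the matrix `X`, extended by the identity -/
noncomputable def W (X : Matrix (Fin d) (Fin d) ℝ) : E →L[ℝ] E :=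
  ph X + (ContinuousLinearMap.id ℝ E - ph (1 : Matrix (Fin d) (Fin d) ℝ))

theorem ph_one_e (j : Fin d) : ph (1 : Matrix (Fin d) (Fin d) ℝ) (e j) = e j := by
  rw [ph_e, Finset.sum_eq_single j]
  · rw [Matrix.one_apply_eq, one_smul]
  · intro k _ hk
    rw [Matrix.one_apply_ne hk, zero_smul]
  · intro h; exact absurd (Finset.mem_univ _) h

theorem W_e (X : Matrix (Fin d) (Fin d) ℝ) (j : Fin d) :
    W X (e j) = ∑ i : Fin d, X i j • e (i : ℕ) := by
  have h : W X (e j) = ph X (e j) + (e j - ph 1 (e j)) := rfl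
  rw [h, ph_one_e, sub_self, add_zero, ph_e]

theorem W_e_ge (X : Matrix (Fin d) (Fin d) ℝ) {n : ℕ} (hn : d ≤ n) : W X (e n) = e n := by
  have h : W X (e n) = ph X (e n) + (e n - ph 1 (e n)) := rfl
  rw [h, ph_e_ge _ hn, ph_e_ge _ hn, sub_zero, zero_add]

theorem W_one : W (1 : Matrix (Fin d) (Fin d) ℝ) = ContinuousLinearMap.id ℝ E := by
  unfold W; abel

theorem W_mul (X Y : Matrix (Fin d) (Fin d) ℝ) : W (X * Y) = (W X).comp (W Y) := by
  refine ext_e fun n => ?_
  rw [ContinuousLinearMap.comp_apply]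
  by_cases hn : n < d
  · have h1 := W_e (X * Y) ⟨n, hn⟩
    have h2 := W_e Y ⟨n, hn⟩
    simp only at h1 h2
    rw [h1, h2, map_sum]
    have h3 : ∀ k : Fin d, W X (Y k ⟨n, hn⟩ • e (k : ℕ)) =
        ∑ i : Fin d, (X i k * Y k ⟨n, hn⟩) • e (i : ℕ) := by
      intro k
      rw [map_smul, W_e, Finset.smul_sum]
      refine Finset.sum_congr rfl fun i _ => ?_
      rw [smul_smul, mul_comm]
    rw [Finset.sum_congr rfl fun k _ => h3 k, Finset.sum_comm]
    refine Finset.sum_congr rfl fun i _ => ?_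
    rw [Matrix.mul_apply, Finset.sum_smul]
  · rw [W_e_ge _ (by omega), W_e_ge _ (by omega), W_e_ge _ (by omega)]

/-- column stochastic -/
def CS (X : Matrix (Fin d) (Fin d) ℝ) : Prop :=
  (∀ i j, 0 ≤ X i j) ∧ ∀ j, ∑ i, X i j = 1

theorem fin_sum_apply (a : Fin d → ℝ) (n : ℕ) :
    (∑ i : Fin d, a i • e (i : ℕ) : E) n = ∑ i : Fin d, a i * (e (i : ℕ) : E) n := by
  rw [← cf_apply, map_sum]
  refine Finset.sum_congr rfl fun i _ => ?_
  rw [map_smul, smul_eq_mul, cf_apply]

theorem W_mk {X : Matrix (Fin d) (Fin d) ℝ} (hX : CS X) : Mk (W X) := by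
  have hpos : ∀ m n, 0 ≤ (W X (e m)) n := by
    intro m n
    by_cases hm : m < d
    · have h1 := W_e X ⟨m, hm⟩
      simp only at h1
      rw [h1, fin_sum_apply]
      exact Finset.sum_nonneg fun i _ => mul_nonneg (hX.1 _ _) (e_nonneg _ _)
    · rw [W_e_ge _ (by omega)]
      exact e_nonneg _ _
  have hp : ∀ x : E, (∀ n, 0 ≤ x n) → ∀ n, 0 ≤ (W X x) n := by
    intro x hx n
    have h1 := (hasSum_e x).mapL ((cf n).comp (W X))
    refine h1.nonneg fun m => ?_
    rw [map_smul, smul_eq_mul]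
    exact mul_nonneg (hx m) (hpos m n)
  refine ⟨hp, ?_⟩
  have hs : ∀ y : E, (∀ n, 0 ≤ y n) → ‖y‖ = pairL 1 y := by
    intro y hy
    rw [norm_eq, pairL_apply]
    refine tsum_congr fun n => ?_
    rw [abs_of_nonneg (hy n), BoundedContinuousFunction.coe_one, Pi.one_apply, mul_one]
  have hfun : (pairL 1).comp (W X) = pairL 1 := by
    refine ext_e fun n => ?_
    rw [ContinuousLinearMap.comp_apply]
    by_cases hn : n < d
    · have h1 := W_e X ⟨n, hn⟩
      simp only at h1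
      rw [h1, map_sum, pairL_e]
      have h2 : ∀ i : Fin d, pairL 1 (X i ⟨n, hn⟩ • e (i : ℕ)) = X i ⟨n, hn⟩ := by
        intro i
        rw [map_smul, pairL_e, smul_eq_mul, BoundedContinuousFunction.coe_one, Pi.one_apply,
          mul_one]
      rw [Finset.sum_congr rfl fun i _ => h2 i, hX.2]
      rfl
    · rw [W_e_ge _ (by omega)]
  intro x hx
  rw [hs _ (hp x hx), hs _ hx]
  have := congrArg (fun A : E →L[ℝ] ℝ => A x) hfun
  exact this

theorem W_bound {X : Matrix (Fin d) (Fin d) ℝ} {M : ℝ} (hM : 1 ≤ M)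
    (hX : ∀ j, ∑ i, |X i j| ≤ M) (x : E) : ‖W X x‖ ≤ M * ‖x‖ := by
  refine opNorm_le (fun n => ?_) x
  by_cases hn : n < d
  · have h1 := W_e X ⟨n, hn⟩
    simp only at h1
    rw [h1]
    refine (norm_sum_le _ _).trans ((Finset.sum_le_sum fun i _ => ?_).trans (hX ⟨n, hn⟩))
    rw [norm_smul, norm_e, mul_one, Real.norm_eq_abs]
  · rw [W_e_ge _ (by omega), norm_e]
    exact hM

theorem sum_abs_le (a : Fin d → ℝ) : ∑ i, |a i| ≤ ‖(∑ i : Fin d, a i • e (i : ℕ) : E)‖ := by
  rw [norm_eq]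
  have h1 : ∀ i : Fin d, (∑ k : Fin d, a k • e (k : ℕ) : E) i = a i := by
    intro i
    rw [fin_sum_apply, Finset.sum_eq_single i]
    · rw [e_self, mul_one]
    · intro k _ hk
      rw [e_ne (fun h => hk (Fin.ext h.symm)), mul_zero]
    · intro h; exact absurd (Finset.mem_univ _) h
  have h2 := (summ (∑ i : Fin d, a i • e (i : ℕ) : E)).sum_le_tsum
    (Finset.univ.map (Fin.valEmbedding : Fin d ↪ ℕ)) (fun n _ => abs_nonneg _)
  rw [Finset.sum_map] at h2
  refine le_trans (le_of_eq ?_) h2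
  refine Finset.sum_congr rfl fun i _ => ?_
  rw [Fin.valEmbedding_apply, h1]

/-- linear growth of the defect operators -/
theorem Bd_lin {T : NNReal → (E →L[ℝ] E)} (hT : MSG T) {l₀ : ℕ}
    (h : ∀ j, ∀ m, l₀ < m → (3 : ℝ) / 4 < (T (hl m) (e j)) j) :
    ∀ k, 2 ^ k * ‖Bd T (l₀ + 1 + k)‖ ≤ 2 - 3 / 2 * (2 / 3) ^ k := by
  intro k
  induction k with
  | zero =>
    have := Bd_rec hT h 0
    norm_num at this ⊢
    linarith
  | succ k ih =>
    have h1 := Bd_double hT (l₀ + 1 + k)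
    have h2 := Bd_rec hT h (k + 1)
    rw [show l₀ + 1 + (k + 1) = l₀ + 1 + k + 1 by ring] at h2 ⊢
    set b := ‖Bd T (l₀ + 1 + k + 1)‖ with hb
    have h3 : 2 * b ≤ ‖Bd T (l₀ + 1 + k)‖ + b * b := by
      have e1 : 2 * b = ‖(2 : ℝ) • Bd T (l₀ + 1 + k + 1)‖ := by
        rw [norm_smul]; norm_num [hb]
      rw [e1, h1]
      refine (norm_add_le _ _).trans ?_
      gcongr
      exact ContinuousLinearMap.opNorm_comp_le _ _
    have hb0 : 0 ≤ b := norm_nonneg _
    set r : ℝ := (2 / 3) ^ k with hr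
    have hr0 : 0 < r := by positivity
    have hr1 : r ≤ 1 := pow_le_one₀ (by norm_num) (by norm_num)
    have hk : (2 / 3 : ℝ) ^ (k + 1) = 2 / 3 * r := by rw [pow_succ, hr]; ring
    rw [hk] at h2 ⊢
    have h4 : b ≤ r / 3 := by linarith
    set u := (2 : ℝ) ^ (k + 1) * b with hu
    have hu0 : 0 ≤ u := by positivity
    have h5 : u ≤ (2 - 3 / 2 * r) + u * (b / 2) := by
      have h6 : (2 : ℝ) ^ k * (2 * b) ≤ 2 ^ k * (‖Bd T (l₀ + 1 + k)‖ + b * b) :=
        mul_le_mul_of_nonneg_left h3 (by positivity)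
      have h7 : u = 2 ^ k * (2 * b) := by rw [hu, pow_succ]; ring
      have h8 : (2 : ℝ) ^ k * (b * b) = u * (b / 2) := by rw [hu, pow_succ]; ring
      rw [h7]
      rw [mul_add, h8] at h6
      rw [← h7]
      rw [← h7] at h6
      linarith
    have h9 : u * (1 - r / 6) ≤ 2 - 3 / 2 * r := by nlinarith
    by_contra hcon
    rw [not_le] at hcon
    have h10 : (2 - 3 / 2 * (2 / 3 * r)) * (1 - r / 6) < u * (1 - r / 6) :=
      mul_lt_mul_of_pos_right hcon (by linarith)
    nlinarith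

end Pool.Agent.W673.Mk
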