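import Mathlib
import Pool.Agent.W673.Mk.Dec

/-!
# The decoupled Markov group theorem: exponentials of matrices
-/

set_option autoImplicit false
open Set Filter Topology

namespace Pool.Agent.W673.Mk
open H520R3.MG

variable {d : ℕ}

/-! ### Entries of the exponential -/

set_option backward.isDefEq.respectTransparency false in
theorem exp_entry_cont (Q : Matrix (Fin d) (Fin d) ℝ) (i j : Fin d) :
    Continuous fun t : ℝ => NormedSpace.exp (t • Q) i j := by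
  open scoped Matrix.Norms.Operator in
  have h : Continuous fun t : ℝ => NormedSpace.exp (t • Q) :=
    NormedSpace.exp_continuous.comp (continuous_id.smul continuous_const)
  exact (continuous_apply j).comp ((continuous_apply i).comp h)

set_option backward.isDefEq.respectTransparency false in
theorem exp_entry_deriv (Q : Matrix (Fin d) (Fin d) ℝ) (i j : Fin d) :
    HasDerivAt (fun t : ℝ => NormedSpace.exp (t • Q) i j) (Q i j) 0 := by
  open scoped Matrix.Norms.Operator in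
  have h : HasDerivAt (fun t : ℝ => NormedSpace.exp (t • Q))
      (NormedSpace.exp ((0 : ℝ) • Q) * Q) 0 := hasDerivAt_exp_smul_const Q (0 : ℝ)
  rw [zero_smul, NormedSpace.exp_zero, one_mul] at h
  let L : Matrix (Fin d) (Fin d) ℝ →L[ℝ] ℝ :=
    LinearMap.toContinuousLinearMap
      { toFun := fun X => X i j
        map_add' := fun _ _ => rfl
        map_smul' := fun _ _ => rfl }
  exact L.hasFDerivAt.comp_hasDerivAt (0 : ℝ) h

/-- the semigroup on `ℓ¹` attached to `Q` -/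
noncomputable def TQ (Q : Matrix (Fin d) (Fin d) ℝ) (t : NNReal) : E →L[ℝ] E :=
  W (NormedSpace.exp ((t : ℝ) • Q))

theorem TQ_zero (Q : Matrix (Fin d) (Fin d) ℝ) : TQ Q 0 = ContinuousLinearMap.id ℝ E := by
  unfold TQ
  rw [NNReal.coe_zero, zero_smul, NormedSpace.exp_zero, W_one]

theorem TQ_add (Q : Matrix (Fin d) (Fin d) ℝ) (s t : NNReal) :
    TQ Q (s + t) = (TQ Q s).comp (TQ Q t) := by
  unfold TQ
  rw [NNReal.coe_add, add_smul, Matrix.exp_add_of_commute _ _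
    (((Commute.refl Q).smul_left _).smul_right _), W_mul]

theorem TQ_cont (Q : Matrix (Fin d) (Fin d) ℝ) (x : E) : Continuous fun t : NNReal => TQ Q t x := by
  have h : ∀ t : NNReal, TQ Q t x =
      (∑ i : Fin d, ∑ j : Fin d, (NormedSpace.exp ((t : ℝ) • Q) i j * x j) • e (i : ℕ)) +
        (x - ph (1 : Matrix (Fin d) (Fin d) ℝ) x) := by
    intro t
    rw [← ph_apply]
    rfl
  simp only [h]
  refine Continuous.add ?_ continuous_const
  refine continuous_finset_sum _ fun i _ => continuous_finset_sum _ fun j _ => ?_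
  exact (((exp_entry_cont Q i j).comp NNReal.continuous_coe).mul continuous_const).smul
    continuous_const

theorem exp_neg_mul (Q : Matrix (Fin d) (Fin d) ℝ) :
    NormedSpace.exp (-Q) * NormedSpace.exp Q = 1 := by
  rw [← Matrix.exp_add_of_commute _ _ (Commute.refl Q).neg_left, neg_add_cancel,
    NormedSpace.exp_zero]

theorem exp_mul_neg (Q : Matrix (Fin d) (Fin d) ℝ) :
    NormedSpace.exp Q * NormedSpace.exp (-Q) = 1 := by
  rw [← Matrix.exp_add_of_commute _ _ (Commute.refl Q).neg_right, add_neg_cancel,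
    NormedSpace.exp_zero]

theorem TQ_msg {Q : Matrix (Fin d) (Fin d) ℝ}
    (hQ : ∀ t : ℝ, 0 ≤ t → CS (NormedSpace.exp (t • Q))) : MSG (TQ Q) := by
  refine ⟨TQ_zero Q, TQ_add Q, TQ_cont Q, fun t => W_mk (hQ _ t.2), ?_⟩
  have h1 : TQ Q 1 = W (NormedSpace.exp Q) := by
    unfold TQ; rw [NNReal.coe_one, one_smul]
  have h2 : ∀ x, W (NormedSpace.exp (-Q)) (TQ Q 1 x) = x := by
    intro x
    rw [h1, ← ContinuousLinearMap.comp_apply, ← W_mul, exp_neg_mul, W_one]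
    rfl
  have h3 : ∀ x, TQ Q 1 (W (NormedSpace.exp (-Q)) x) = x := by
    intro x
    rw [h1, ← ContinuousLinearMap.comp_apply, ← W_mul, exp_mul_neg, W_one]
    rfl
  exact ⟨fun a b hab => by rw [← h2 a, ← h2 b, hab], fun y => ⟨_, h3 y⟩⟩

theorem TQ_lower {Q : Matrix (Fin d) (Fin d) ℝ} {M : ℝ} (hM : 1 ≤ M)
    (hQ : ∀ t : ℝ, 0 ≤ t → CS (NormedSpace.exp (t • Q)))
    (hb : ∀ j, ∑ i, |NormedSpace.exp (-Q) i j| ≤ M) (t : NNReal) (ht : t ≤ 2) (x : E) :
    ‖x‖ ≤ M * M * ‖TQ Q t x‖ := by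
  have hT := TQ_msg hQ
  have hcM : ∀ x : E, ‖x‖ ≤ M * ‖TQ Q 1 x‖ := by
    intro x
    have h1 : TQ Q 1 = W (NormedSpace.exp Q) := by
      unfold TQ; rw [NNReal.coe_one, one_smul]
    have h2 : W (NormedSpace.exp (-Q)) (TQ Q 1 x) = x := by
      rw [h1, ← ContinuousLinearMap.comp_apply, ← W_mul, exp_neg_mul, W_one]
      rfl
    calc ‖x‖ = ‖W (NormedSpace.exp (-Q)) (TQ Q 1 x)‖ := by rw [h2]
      _ ≤ M * ‖TQ Q 1 x‖ := W_bound hM hb _
  have h1 : TQ Q 2 = (TQ Q 1).comp (TQ Q 1) := by rw [← hT.add]; norm_num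
  have h2 : TQ Q 2 = (TQ Q (2 - t)).comp (TQ Q t) := by rw [← hT.add, tsub_add_cancel_of_le ht]
  have h3 : ‖TQ Q 2 x‖ ≤ ‖TQ Q t x‖ := by
    rw [h2]
    exact (hT.mkv (2 - t)).contr _
  have h4 : TQ Q 2 x = TQ Q 1 (TQ Q 1 x) := by rw [h1]; rfl
  calc ‖x‖ ≤ M * ‖TQ Q 1 x‖ := hcM x
    _ ≤ M * (M * ‖TQ Q 1 (TQ Q 1 x)‖) := mul_le_mul_of_nonneg_left (hcM _) (by linarith)
    _ = M * M * ‖TQ Q 2 x‖ := by rw [h4]; ring
    _ ≤ M * M * ‖TQ Q t x‖ := mul_le_mul_of_nonneg_left h3 (by nlinarith)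

theorem hl_coe (m : ℕ) : ((hl m : NNReal) : ℝ) = (1 / 2) ^ m := by
  unfold hl; push_cast; rfl

theorem main (M : ℝ) (hM : 1 ≤ M) : ∃ C : ℝ, 0 ≤ C ∧
    ∀ d : ℕ, ∀ Q : Matrix (Fin d) (Fin d) ℝ,
      (∀ j : Fin d, ∑ i : Fin d, |NormedSpace.exp (-Q) i j| ≤ M) →
      (∀ t : ℝ, 0 ≤ t → CS (NormedSpace.exp (t • Q))) →
      ∀ j : Fin d, ∑ i : Fin d, |Q i j| ≤ C := by
  obtain ⟨l₀, hl₀⟩ := levels' (M * M) (by nlinarith)
  refine ⟨2 ^ (l₀ + 2), by positivity, ?_⟩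
  intro d Q hb hQ j
  have hT := TQ_msg hQ
  have hlev := hl₀ (TQ Q) hT (TQ_lower hM hQ hb)
  have hlin := Bd_lin hT hlev
  have key : ∀ k : ℕ, ∑ i : Fin d, |((1 / 2 : ℝ) ^ (l₀ + 1 + k))⁻¹ *
      (NormedSpace.exp (((1 / 2 : ℝ) ^ (l₀ + 1 + k)) • Q) i j - (1 : Matrix (Fin d) (Fin d) ℝ) i j)| ≤
        2 ^ (l₀ + 2) := by
    intro k
    set m := l₀ + 1 + k with hm
    set X := NormedSpace.exp (((1 / 2 : ℝ) ^ m) • Q) with hX
    have h1 : Bd (TQ Q) m (e j) = -∑ i : Fin d, (X i j - (1 : Matrix (Fin d) (Fin d) ℝ) i j) • e (i : ℕ) := by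
      have h2 : Bd (TQ Q) m (e j) = e j - W X (e j) := by
        unfold Bd TQ
        rw [hl_coe]
        rfl
      have h3 : W (1 : Matrix (Fin d) (Fin d) ℝ) (e j) = e j := by rw [W_one]; rfl
      rw [h2, ← h3, W_one]
      change e (j : ℕ) - W X (e (j : ℕ)) = _
      rw [W_e]
      nth_rw 1 [← h3]
      rw [W_e, ← Finset.sum_sub_distrib, ← Finset.sum_neg_distrib]
      refine Finset.sum_congr rfl fun i _ => ?_
      rw [← sub_smul, ← neg_smul, neg_sub]
    have h4 := (Bd (TQ Q) m).le_opNorm (e j)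
    rw [norm_e, mul_one, h1, norm_neg] at h4
    have h5 := (sum_abs_le (fun i : Fin d => X i j - (1 : Matrix (Fin d) (Fin d) ℝ) i j)).trans h4
    have h6 : ∑ i : Fin d, |((1 / 2 : ℝ) ^ m)⁻¹ * (X i j - (1 : Matrix (Fin d) (Fin d) ℝ) i j)| =
        2 ^ m * ∑ i : Fin d, |X i j - (1 : Matrix (Fin d) (Fin d) ℝ) i j| := by
      rw [Finset.mul_sum]
      refine Finset.sum_congr rfl fun i _ => ?_
      rw [abs_mul]
      congr 1
      rw [one_div, inv_pow, inv_inv, abs_of_pos (by positivity)]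
    rw [h6]
    have h7 := hlin k
    rw [← hm] at h7
    have h8 : (0 : ℝ) < (2 / 3) ^ k := by positivity
    calc (2 : ℝ) ^ m * ∑ i : Fin d, |X i j - (1 : Matrix (Fin d) (Fin d) ℝ) i j|
        ≤ 2 ^ m * ‖Bd (TQ Q) m‖ := mul_le_mul_of_nonneg_left h5 (by positivity)
      _ = 2 ^ (l₀ + 1) * (2 ^ k * ‖Bd (TQ Q) m‖) := by rw [hm, pow_add 2 (l₀ + 1) k]; ring
      _ ≤ 2 ^ (l₀ + 1) * 2 := mul_le_mul_of_nonneg_left (by linarith) (by positivity)
      _ = 2 ^ (l₀ + 2) := by ring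
  -- the limit
  have hlim : ∀ i : Fin d, Tendsto (fun k : ℕ => |((1 / 2 : ℝ) ^ (l₀ + 1 + k))⁻¹ *
      (NormedSpace.exp (((1 / 2 : ℝ) ^ (l₀ + 1 + k)) • Q) i j - (1 : Matrix (Fin d) (Fin d) ℝ) i j)|)
      atTop (𝓝 |Q i j|) := by
    intro i
    refine Tendsto.abs ?_
    have h1 := (exp_entry_deriv Q i j).tendsto_slope_zero
    have h2 : Tendsto (fun k : ℕ => ((1 : ℝ) / 2) ^ (l₀ + 1 + k)) atTop (𝓝[≠] 0) := by
      refine tendsto_nhdsWithin_of_tendsto_nhds_of_eventually_within _ ?_ ?_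
      · have h3 := tendsto_pow_atTop_nhds_zero_of_lt_one (r := (1 / 2 : ℝ)) (by norm_num)
          (by norm_num)
        exact h3.comp (tendsto_atTop_mono (fun k => Nat.le_add_left k (l₀ + 1)) tendsto_id)
      · exact Eventually.of_forall fun k => by
          have : (0 : ℝ) < (1 / 2) ^ (l₀ + 1 + k) := by positivity
          exact this.ne'
    have h3 := h1.comp h2
    refine h3.congr fun k => ?_
    simp only [Function.comp, zero_add, smul_eq_mul, zero_smul, NormedSpace.exp_zero]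
  exact le_of_tendsto (tendsto_finset_sum _ fun i _ => hlim i) (Eventually.of_forall key)

end Pool.Agent.W673.Mk
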